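import Mathlib
import Pool.Agent.H42.FinalOne

/-!
# Rigid maximal Cohen-Macaulay modules in dimension at most one

Hand-in for MP_d7d607_ag (seat helper42).
-/

set_option autoImplicit false

universe u

namespace Pool.Agent.Results.MP_d7d607_ag.DimAtMostOne

open H42 IsLocalRing

/-- Let `R` be a Noetherian local ring of Krull dimension at most one such that `R` is a domain, or
`R` contains a field, or some prime number lies in the maximal ideal of `R` and is a
nonzerodivisor.  Then for every `N` there are only finitely many isomorphism classes of finitely
generated maximal Cohen-Macaulay `R`-modules all of whose self-extensions split and whose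
multiplicity is at most `N`. -/
theorem result :
    ∀ (R : Type u) [CommRing R] [IsLocalRing R] [IsNoetherianRing R],
      ringKrullDim R ≤ 1 →
      (IsDomain R ∨ (∃ K : Subring R, IsField K) ∨
        ∃ p : ℕ, p.Prime ∧ (p : R) ∈ IsLocalRing.maximalIdeal R ∧ (p : R) ∈ nonZeroDivisors R) →
      ∀ N : ℕ,
        ∃ (k : ℕ) (F : Fin k → ModuleCat.{u} R),
          ∀ (M : Type u) [AddCommGroup M] [Module R M],
            Module.Finite R M →
            (∃ rs : List R,
                (∀ r ∈ rs, r ∈ IsLocalRing.maximalIdeal R) ∧
                RingTheory.Sequence.IsRegular M rs ∧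
                ((rs.length : WithBot ℕ∞) = ringKrullDim R) ∧
                ∃ e : ℝ, e ≤ (N : ℝ) ∧
                  Filter.Tendsto
                    (fun n : ℕ =>
                      ((rs.length).factorial : ℝ) *
                        ((Module.length R
                            (M ⧸ ((IsLocalRing.maximalIdeal R ^ n) •
                              (⊤ : Submodule R M)))).toNat : ℝ) /
                        ((n : ℝ) ^ rs.length))
                    Filter.atTop (nhds e)) →
            (∀ (E : Type u) [AddCommGroup E] [Module R E]
                (f : M →ₗ[R] E) (g : E →ₗ[R] M),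
                Function.Injective f → Function.Surjective g →
                LinearMap.range f = LinearMap.ker g →
                ∃ s : M →ₗ[R] E, g ∘ₗ s = LinearMap.id) →
            ∃ i : Fin k, Nonempty (M ≃ₗ[R] (F i)) := by
  intro R _ _ _ hdim hR N
  have hK : Ring.KrullDimLE 1 R := Ring.krullDimLE_iff.mpr (by exact_mod_cast hdim)
  -- reduce to the last two cases
  have hR' : HasField R ∨ ∃ p : ℕ, p.Prime ∧ (p : R) ∈ maximalIdeal R ∧
      (p : R) ∈ nonZeroDivisors R := by
    rcases hR with h | h | h
    · exact domain_cases R
    · exact Or.inl h
    · exact Or.inr h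
  obtain ⟨k, F, hF⟩ := finite_of_seq (R := R) (fun X => Module.Finite R X ∧ MCMLe R N X ∧ EP R X)
    (by
      intro f hf
      have hfin := fun n => (hf n).1
      have hM := fun n => (hf n).2.1
      have hEP := fun n => (hf n).2.2
      by_cases h0 : Ring.KrullDimLE 0 R
      · -- dimension zero
        refine seq_dimZero h0 ?_ N f hfin hM hEP
        rcases hR' with h | ⟨p, hp, hpm, hpr⟩
        · exact h
        · exfalso
          have hnil : IsNilpotent (p : R) :=
            (Ring.KrullDimLE.isNilpotent_iff_mem_maximalIdeal).mpr hpm
          obtain ⟨n, hn⟩ := hnil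
          have h1 := pow_mem hpr n
          rw [hn] at h1
          exact zero_notMem_nonZeroDivisors h1
      · -- dimension one
        rcases hR' with h | ⟨p, hp, hpm, hpr⟩
        · obtain ⟨x, hxm, hx⟩ := exists_parameter h0
          have hne : Nontrivial (R ⧸ Ideal.span {x}) := by
            rw [Ideal.Quotient.nontrivial_iff]
            intro h1
            have h2 : (1 : R) ∈ maximalIdeal R :=
              ((Ideal.span_singleton_le_iff_mem _).mpr hxm) (by rw [h1]; trivial)
            exact (Ideal.ne_top_iff_one _).mp (IsLocalRing.maximalIdeal.isMaximal R).ne_top h2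
          refine seq_dimOne h0 x hxm hx (h.map (Ideal.Quotient.mk _)) (fun P hP => ?_) N f hfin
            hM hEP
          have hPp : P.IsPrime := Ideal.IsMinimalPrime.isPrime hP
          exact h.map (algebraMap R (Localization.AtPrime P))
        · have hx : ∀ P ∈ minimalPrimes R, (p : R) ∉ P := by
            intro P hP hpP
            exact notMem_nonZeroDivisors_of_mem_mem_minimalPrimes hpP hP hpr
          have hne : Nontrivial (R ⧸ Ideal.span {(p : R)}) := by
            rw [Ideal.Quotient.nontrivial_iff]
            intro h1
            have h2 : (1 : R) ∈ maximalIdeal R :=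
              ((Ideal.span_singleton_le_iff_mem _).mpr hpm) (by rw [h1]; trivial)
            exact (Ideal.ne_top_iff_one _).mp (IsLocalRing.maximalIdeal.isMaximal R).ne_top h2
          refine seq_dimOne h0 (p : R) hpm hx ?_ (fun P hP => ?_) N f hfin hM hEP
          · refine HasField.of_natCast_eq_zero p hp ?_
            rw [← map_natCast (Ideal.Quotient.mk (Ideal.span {(p : R)})) p]
            exact Ideal.Quotient.eq_zero_iff_mem.mpr (Ideal.mem_span_singleton_self _)
          · have hPp : P.IsPrime := Ideal.IsMinimalPrime.isPrime hP
            refine HasField.of_isUnit_prime (R := R) (A := Localization.AtPrime P) p hp hpm ?_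
            have h1 := IsLocalization.map_units (Localization.AtPrime P)
              (⟨(p : R), hx P hP⟩ : P.primeCompl)
            rwa [map_natCast] at h1)
  refine ⟨k, F, ?_⟩
  intro M _ _ hfin hM hrig
  exact hF (ModuleCat.of R M) ⟨hfin, hM, EP.of_split M hrig⟩

end Pool.Agent.Results.MP_d7d607_ag.DimAtMostOne
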