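import Mathlib
import Pool.Agent.H42.D2.SeqMod
import Pool.Agent.H42.D2.RegDom
import Pool.Agent.H42.D2.PSreg
import Pool.Agent.H42.D2.Sop2
import Pool.Agent.H42.D2.CohF
import Pool.Agent.H42.D2.EvalPS
import Pool.Agent.H96.RM.FinPS

/-!
# Rigid maximal Cohen-Macaulay modules in dimension two

Hand-in for MP_d7d607_ag (seat helper42).
-/

set_option autoImplicit false

universe u

namespace Pool.Agent.Results.MP_d7d607_ag.DimTwo

open H42 H42.D2 IsLocalRing

/-- Let `R` be a Noetherian local ring of Krull dimension two which is complete and contains a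
field, or which is a finite module over a regular local ring of dimension two.  Then for every `N`
there are only finitely many isomorphism classes of finitely generated maximal Cohen-Macaulay
`R`-modules all of whose self-extensions split and whose multiplicity is at most `N`. -/
theorem result :
    ∀ (R : Type u) [CommRing R] [IsLocalRing R] [IsNoetherianRing R],
      ringKrullDim R = 2 →
      ((IsAdicComplete (IsLocalRing.maximalIdeal R) R ∧ ∃ K : Subring R, IsField K) ∨
        ∃ (S : Type u) (_ : CommRing S) (_ : Algebra S R), IsRegularLocalRing S ∧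
          ringKrullDim S = 2 ∧ Module.Finite S R) →
      ∀ N : ℕ,
        ∃ (k : ℕ) (F : Fin k → ModuleCat.{u} R),
          ∀ (M : Type u) [AddCommGroup M] [Module R M],
            Module.Finite R M →
            (∃ rs : List R,
                (∀ r ∈ rs, r ∈ IsLocalRing.maximalIdeal R) ∧
                RingTheory.Sequence.IsRegular M rs ∧
                ((rs.length : WithBot ℕ∞) = ringKrullDim R) ∧
                ∃ e : ℝ, e ≤ (N : ℝ) ∧
                  Filter.Tendsto
                    (fun n : ℕ =>
                      ((rs.length).factorial : ℝ) *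
                        ((Module.length R
                            (M ⧸ ((IsLocalRing.maximalIdeal R ^ n) •
                              (⊤ : Submodule R M)))).toNat : ℝ) /
                        ((n : ℝ) ^ rs.length))
                    Filter.atTop (nhds e)) →
            (∀ (E : Type u) [AddCommGroup E] [Module R E]
                (f : M →ₗ[R] E) (g : E →ₗ[R] M),
                Function.Injective f → Function.Surjective g →
                LinearMap.range f = LinearMap.ker g →
                ∃ s : M →ₗ[R] E, g ∘ₗ s = LinearMap.id) →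
            ∃ i : Fin k, Nonempty (M ≃ₗ[R] (F i)) := by
  intro R _ _ _ hd hR N
  -- a regular local ring below `R`
  have key : ∃ (S : Type u) (_ : CommRing S) (_ : IsDomain S) (_ : IsLocalRing S)
      (_ : IsNoetherianRing S) (_ : Algebra S R) (x y : S), Module.Finite S R ∧
      maximalIdeal S = Ideal.span {x, y} ∧ x ≠ 0 ∧ ∀ s : S, x ∣ y * s → x ∣ s := by
    rcases hR with ⟨hc, hK⟩ | ⟨S, _, _, hS, hdS, hfin⟩
    · obtain ⟨s, hs⟩ := exists_coeff_field_complete R hK
      obtain ⟨y, c, hy, hyc⟩ := exists_sop_two hd
      obtain ⟨φ, hφC, hφX⟩ := exists_eval (maximalIdeal R) s y hy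
      have hfin : φ.Finite := by
        refine H96.RM.finite_of_sop φ (fun r => ⟨residue R r, ?_⟩) (fun i => ?_) c ?_
        · rw [hφC, ← residue_eq_zero_iff, map_sub, hs, sub_self]
        · rw [hφX]
          exact hy i
        · have h1 : (fun i => φ (MvPowerSeries.X i)) = y := funext hφX
          rw [h1]
          exact hyc
      obtain ⟨a, b, hab, ha, hb⟩ := ps_pair (ResidueField R)
      refine ⟨MvPowerSeries (Fin 2) (ResidueField R), inferInstance,
        NoZeroDivisors.to_isDomain _, inferInstance, ?_, φ.toAlgebra, a, b, hfin, hab, ha, hb⟩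
      exact H96.RM.pi_isNoetherian (RingHom.id _) Function.surjective_id
    · obtain ⟨hdom, a, b, hab, ha, hb⟩ := exists_regular_pair S hdS
      exact ⟨S, inferInstance, hdom, inferInstance, inferInstance, inferInstance, a, b, hfin,
        hab, ha, hb⟩
  obtain ⟨S, _, _, _, _, _, x, y, hfin, hxy, hx, hy⟩ := key
  obtain ⟨k, F, hF⟩ := finite_of_seq (R := R) (fun X => Module.Finite R X ∧ MCMLe R N X ∧
      (∀ (E : Type u) [AddCommGroup E] [Module R E] (f : X →ₗ[R] E) (g : E →ₗ[R] X),
        Function.Injective f → Function.Surjective g → LinearMap.range f = LinearMap.ker g →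
        ∃ s : X →ₗ[R] E, g ∘ₗ s = LinearMap.id))
    (fun f hf => seq_mod x y hxy hx hy R hd N f (fun n => (hf n).1) (fun n => (hf n).2.1)
      (fun n => (hf n).2.2))
  refine ⟨k, F, ?_⟩
  intro M _ _ hfinM hM hrig
  exact hF (ModuleCat.of R M) ⟨hfinM, hM, hrig⟩

end Pool.Agent.Results.MP_d7d607_ag.DimTwo
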