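import Mathlib
import Pool.Agent.H96.RM.SeqMain
import Pool.Agent.H96.RM.FFJac
import Pool.Agent.H96.RM.RigidSplit

/-!
# Finiteness of rigid maximal Cohen-Macaulay modules when the Jacobian ideal has coheight one

Hand-in for MP_d7d607_ag (seat helper96).
-/

set_option autoImplicit false

universe u

namespace Pool.Agent.Results.MP_d7d607_ag.JacobianDimOne

open H96.RM IsLocalRing

/-- Let `k` be an infinite field and `R` a quotient of `k[[X_1, ..., X_n]]` of Krull dimension `d`
(`π` is the quotient map).  Let `J` be the Jacobian ideal of `R`, generated by the images of the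
maximal minors `det (∂ f_i / ∂ X_{c j})` of all families `f_1, ..., f_{n-d}` in the kernel of `π`.
If `R / J` has Krull dimension at most one, then for every `N` there are only finitely many
isomorphism classes of finitely generated maximal Cohen-Macaulay `R`-modules all of whose
self-extensions split and whose multiplicity is at most `N`. -/
theorem result :
    ∀ (k : Type u) [Field k] [Infinite k] (n : ℕ) (R : Type u) [CommRing R] [IsLocalRing R]
      (π : MvPowerSeries (Fin n) k →+* R), Function.Surjective π →
      ∀ d : ℕ, ringKrullDim R = (d : WithBot ℕ∞) →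
      ringKrullDim (R ⧸ Ideal.span {x : R | ∃ (f : Fin (n - d) → MvPowerSeries (Fin n) k)
        (c : Fin (n - d) → Fin n), (∀ i, π (f i) = 0) ∧
        x = π (Matrix.det (Matrix.of fun i j => MvPowerSeries.pderiv k (c j) (f i)))}) ≤ 1 →
      ∀ N : ℕ,
        ∃ (m : ℕ) (F : Fin m → ModuleCat.{u} R),
          ∀ (M : Type u) [AddCommGroup M] [Module R M],
            Module.Finite R M →
            (∃ rs : List R,
                (∀ r ∈ rs, r ∈ IsLocalRing.maximalIdeal R) ∧
                RingTheory.Sequence.IsRegular M rs ∧
                ((rs.length : WithBot ℕ∞) = ringKrullDim R) ∧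
                ∃ e : ℝ, e ≤ (N : ℝ) ∧
                  Filter.Tendsto
                    (fun n : ℕ =>
                      ((rs.length).factorial : ℝ) *
                        ((Module.length R
                            (M ⧸ ((IsLocalRing.maximalIdeal R ^ n) •
                              (⊤ : Submodule R M)))).toNat : ℝ) /
                        ((n : ℝ) ^ rs.length))
                    Filter.atTop (nhds e)) →
            (∀ (E : Type u) [AddCommGroup E] [Module R E]
                (f : M →ₗ[R] E) (g : E →ₗ[R] M),
                Function.Injective f → Function.Surjective g →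
                LinearMap.range f = LinearMap.ker g →
                ∃ s : M →ₗ[R] E, g ∘ₗ s = LinearMap.id) →
            ∃ i : Fin m, Nonempty (M ≃ₗ[R] (F i)) := by
  intro k _ _ n R _ _ π hπ d hd hJ N
  have hN : IsNoetherianRing R := pi_isNoetherian π hπ
  obtain ⟨m, F, hF⟩ := H42.finite_of_seq (R := R)
    (fun X => Module.Finite R X ∧ H42.MCMLe R N X ∧
      (∀ (E : Type u) [AddCommGroup E] [Module R E] (f : X →ₗ[R] E) (g : E →ₗ[R] X),
        Function.Injective f → Function.Surjective g → LinearMap.range f = LinearMap.ker g →
        ∃ s : X →ₗ[R] E, g ∘ₗ s = LinearMap.id))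
    (by
      intro f hf
      have hfin := fun i => (hf i).1
      have hM := fun i => (hf i).2.1
      rcases d with _ | l
      · -- dimension zero
        have h0 : Ring.KrullDimLE 0 R := Ring.krullDimLE_iff.mpr (by rw [hd])
        exact H42.seq_dimZero h0 (H42.HasField.of_ringHom (π.comp MvPowerSeries.C)) N f hfin hM
          (fun i => H42.EP.of_split (f i) (hf i).2.2)
      · refine seq_main π hπ l hd _ hJ N f hfin hM (fun i x hx => ?_)
          (fun i => rigid_of_split (f i) (hf i).2.2)
        have hle : Ideal.span {x : R | ∃ (f : Fin (n - (l + 1)) → MvPowerSeries (Fin n) k)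
            (c : Fin (n - (l + 1)) → Fin n), (∀ i, π (f i) = 0) ∧
            x = π (Matrix.det (Matrix.of fun i j => MvPowerSeries.pderiv k (c j) (f i)))} ≤
            ffIdeal R (f i) := by
          rw [Ideal.span_le]
          rintro x ⟨g, c, hg, rfl⟩
          refine ff_jac π hπ hd (f i) ?_ g hg c
          intro ys hys hlen hc
          obtain ⟨e, he⟩ := hc
          obtain ⟨rs, hrs, hreg, hl, -⟩ := hM i
          have h1 : ys.length = rs.length := by
            rw [hd] at hl
            have h2 : rs.length = l + 1 := by exact_mod_cast hl
            rw [h2, hlen]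
          exact PR_of_sop (f i) rs hrs hreg hl ys hys h1 e he ys (List.Perm.refl _)
        exact hle hx)
  refine ⟨m, F, ?_⟩
  intro M _ _ hfin hM hrig
  exact hF (ModuleCat.of R M) ⟨hfin, hM, hrig⟩

end Pool.Agent.Results.MP_d7d607_ag.JacobianDimOne
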