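import Mathlib
import Pool.Agent.H25.PSX.Extend
import Pool.Agent.Results.MP_d7d607_ag.DimAtMostOne
import Pool.Agent.Results.MP_d7d607_ag.DimTwo
import Pool.Agent.Results.MP_d7d607_ag.JacobianDimOne

/-!
# Rigid maximal Cohen-Macaulay modules over power series rings

Hand-in for MP_d7d607_ag (seat helper25).
-/

set_option autoImplicit false

universe u

namespace Pool.Agent.Results.MP_d7d607_ag.PowerSeriesExtension

open IsLocalRing

/-- The assertion of the problem for one local ring `R`: for every `N` there are, up to
isomorphism, only finitely many finitely generated maximal Cohen-Macaulay `R`-modules all of whose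
self-extensions split and whose Hilbert-Samuel multiplicity is at most `N`. -/
def FiniteRigid (R : Type u) [CommRing R] [IsLocalRing R] : Prop :=
  ∀ N : ℕ,
    ∃ (k : ℕ) (F : Fin k → ModuleCat.{u} R),
      ∀ (M : Type u) [AddCommGroup M] [Module R M],
        Module.Finite R M →
        (∃ rs : List R,
            (∀ r ∈ rs, r ∈ IsLocalRing.maximalIdeal R) ∧
            RingTheory.Sequence.IsRegular M rs ∧
            ((rs.length : WithBot ℕ∞) = ringKrullDim R) ∧
            ∃ e : ℝ, e ≤ (N : ℝ) ∧
              Filter.Tendsto
                (fun n : ℕ =>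
                  ((rs.length).factorial : ℝ) *
                    ((Module.length R
                        (M ⧸ ((IsLocalRing.maximalIdeal R ^ n) •
                          (⊤ : Submodule R M)))).toNat : ℝ) /
                    ((n : ℝ) ^ rs.length))
                Filter.atTop (nhds e)) →
        (∀ (E : Type u) [AddCommGroup E] [Module R E]
            (f : M →ₗ[R] E) (g : E →ₗ[R] M),
            Function.Injective f → Function.Surjective g →
            LinearMap.range f = LinearMap.ker g →
            ∃ s : M →ₗ[R] E, g ∘ₗ s = LinearMap.id) →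
        ∃ i : Fin k, Nonempty (M ≃ₗ[R] (F i))

/-- Let `R` be a Noetherian local ring and `n` a natural number.  Then `R[[x_1, ..., x_n]]` has the
finiteness property of the problem if
* `R` has the finiteness property; or
* `dim R ≤ 1`, and `R` is a domain or contains a field or has a prime number in its maximal ideal
  which is a nonzerodivisor; or
* `dim R = 2`, and `R` is complete and contains a field, or `R` is finite over a regular local
  ring of dimension two; or
* `R` is a quotient of `k[[X_1, ..., X_m]]`, `k` an infinite field, whose Jacobian ideal has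
  coheight at most one. -/
theorem result :
    ∀ (R : Type u) [CommRing R] [IsLocalRing R] [IsNoetherianRing R] (n : ℕ),
      (FiniteRigid R ∨
        (ringKrullDim R ≤ 1 ∧
          (IsDomain R ∨ (∃ K : Subring R, IsField K) ∨
            ∃ p : ℕ, p.Prime ∧ (p : R) ∈ maximalIdeal R ∧ (p : R) ∈ nonZeroDivisors R)) ∨
        (ringKrullDim R = 2 ∧
          ((IsAdicComplete (maximalIdeal R) R ∧ ∃ K : Subring R, IsField K) ∨
            ∃ (S : Type u) (_ : CommRing S) (_ : Algebra S R), IsRegularLocalRing S ∧
              ringKrullDim S = 2 ∧ Module.Finite S R)) ∨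
        (∃ (k : Type u) (_ : Field k) (_ : Infinite k) (m : ℕ)
          (π : MvPowerSeries (Fin m) k →+* R) (d : ℕ), Function.Surjective π ∧
            ringKrullDim R = (d : WithBot ℕ∞) ∧
            ringKrullDim (R ⧸ Ideal.span {x : R | ∃ (f : Fin (m - d) → MvPowerSeries (Fin m) k)
              (c : Fin (m - d) → Fin m), (∀ i, π (f i) = 0) ∧
              x = π (Matrix.det
                (Matrix.of fun i j => MvPowerSeries.pderiv k (c j) (f i)))}) ≤ 1)) →
      FiniteRigid (MvPowerSeries (Fin n) R) := by
  intro R _ _ _ n h
  refine H25.PSX.FinRigid.mvPowerSeries (R := R) ?_ n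
  rcases h with h | ⟨hd, h⟩ | ⟨hd, h⟩ | ⟨k, _, _, m, π, d, hπ, hd, hJ⟩
  · exact h
  · exact Pool.Agent.Results.MP_d7d607_ag.DimAtMostOne.result R hd h
  · exact Pool.Agent.Results.MP_d7d607_ag.DimTwo.result R hd h
  · exact Pool.Agent.Results.MP_d7d607_ag.JacobianDimOne.result k m R π hπ d hd hJ

end Pool.Agent.Results.MP_d7d607_ag.PowerSeriesExtension
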